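import Pool.Agent.H24Z.NP.SFinal

set_option autoImplicit false

namespace Pool.Agent.Results.MP_ec20d8_an.ASchatten

open Pool.Agent.H24Z.NP

/-- For a closed connected surface, the regular zero set of a function `g` positive near infinity,
and `p > 2`, the Neumann-Poincare operator exists on `L²`, the sum of the `p`-th powers of its
singular values is at least the value for the round sphere, with equality only for spheres. -/
theorem result (g : E3 → ℝ) (hg : ContDiff ℝ 2 g) (hreg : ∀ x, g x = 0 → gradient g x ≠ 0)
    (hout : ∃ R : ℝ, ∀ x, R ≤ ‖x‖ → 0 < g x) (hconn : IsConnected {x | g x = 0})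
    (p : ℝ) (hp : 2 < p) :
    (∃ s, IsSchatten (surf g) (npKernel g) p s) ∧
      ∀ s, IsSchatten (surf g) (npKernel g) p s → sphereVal p ≤ s ∧
        (s = sphereVal p ↔ ∃ c : E3, ∃ r : ℝ, 0 < r ∧ {x | g x = 0} = Metric.sphere c r) :=
  haveI := isPreconnected_iff_preconnectedSpace.mp hconn.2
  schatten_final g ⟨hg, hreg, hout⟩ hconn.1 hp

end Pool.Agent.Results.MP_ec20d8_an.ASchatten
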